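import Mathlib

/-!
# Newton polygons above Hodge polygons: the sums of squares of the slopes

If the polygon with the slopes `S` lies on or above the polygon with the slopes `H`, with the same end
points, then the sum of the squares of the elements of `S` is at most the one of `H`, with equality only
if `S = H`. So equality of the polygons can be checked with one additive function, and it passes from
(sums of) tensor products to the factors, and from direct sums to the summands.
-/

set_option autoImplicit false

namespace Pool.Agent.U8.IH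

open Finset

/-- The point with abscissa `k` of the convex polygon with the slopes `S`: the sum of the `k` smallest
elements of `S`. -/
noncomputable def polygon (S : Multiset ℚ) (k : ℕ) : ℚ := ((S.sort (· ≤ ·)).take k).sum

/-- The convex polygon with the slopes `S` lies on or above the one with the slopes `H`, and they have the
same end point. -/
def LiesAbove (S H : Multiset ℚ) : Prop :=
  Multiset.card S = Multiset.card H ∧ S.sum = H.sum ∧ ∀ k, polygon H k ≤ polygon S k

/-- The slopes of a tensor product: all sums of an element of `S` and an element of `T`. -/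
def pairSums (S T : Multiset ℚ) : Multiset ℚ := S.bind fun a => T.map fun b => a + b

/-- The sum of the squares. -/
def sq (S : Multiset ℚ) : ℚ := (S.map fun a => a ^ 2).sum

lemma abel (s δ : ℕ → ℚ) : ∀ (n : ℕ) (M : ℚ), (∀ i < n, s i ≤ M) →
    (∀ i j, i ≤ j → j < n → s i ≤ s j) → (∀ k ≤ n, ∑ i ∈ range k, δ i ≤ 0) →
    M * ∑ i ∈ range n, δ i ≤ ∑ i ∈ range n, s i * δ i := by
  intro n
  induction n with
  | zero => intro M _ _ _; simp
  | succ n ih =>
    intro M hM hs hd
    have h1 := ih (s n) (fun i hi => hs i n hi.le (Nat.lt_succ_self n))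
      (fun i j hij hj => hs i j hij (hj.trans (Nat.lt_succ_self n)))
      (fun k hk => hd k (hk.trans (Nat.le_succ n)))
    have h2 : M * ∑ i ∈ range (n + 1), δ i ≤ s n * ∑ i ∈ range (n + 1), δ i :=
      mul_le_mul_of_nonpos_right (hM n (Nat.lt_succ_self n)) (hd (n + 1) le_rfl)
    have h3 : ∑ i ∈ range (n + 1), δ i = ∑ i ∈ range n, δ i + δ n := sum_range_succ _ _
    have h4 : ∑ i ∈ range (n + 1), s i * δ i = ∑ i ∈ range n, s i * δ i + s n * δ n :=
      sum_range_succ _ _
    rw [h3] at h2 ⊢
    rw [h4]
    linarith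

lemma take_sum (l : List ℚ) : ∀ k : ℕ, (l.take k).sum = ∑ i ∈ range k, l.getD i 0 := by
  induction l with
  | nil => intro k; simp
  | cons a l ih =>
    intro k
    cases k with
    | zero => simp
    | succ k =>
      rw [List.take_succ_cons, List.sum_cons, sum_range_succ', ih k]
      simp [add_comm]

lemma map_sq_sum (l : List ℚ) :
    (l.map fun a => a ^ 2).sum = ∑ i ∈ range l.length, (l.getD i 0) ^ 2 := by
  have h := take_sum (l.map fun a => a ^ 2) l.length
  rw [List.take_of_length_le (by simp)] at h
  rw [h]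
  refine sum_congr rfl fun i hi => ?_
  have hi' := mem_range.1 hi
  rw [List.getD_eq_getElem _ _ (by simpa using hi'), List.getD_eq_getElem _ _ hi']
  simp

theorem sq_le {S H : Multiset ℚ} (h : LiesAbove S H) : sq S ≤ sq H ∧ (sq S = sq H → S = H) := by
  obtain ⟨hc, hsum, hpol⟩ := h
  set l := S.sort (· ≤ ·) with hl
  set m := H.sort (· ≤ ·) with hm
  have hlS : (l : Multiset ℚ) = S := Multiset.sort_eq _ _
  have hmH : (m : Multiset ℚ) = H := Multiset.sort_eq _ _
  have hll : l.length = Multiset.card S := by rw [← hlS]; rfl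
  have hml : m.length = Multiset.card S := by rw [hc, ← hmH]; rfl
  have hsorted : l.Pairwise (· ≤ ·) := Multiset.pairwise_sort _ _
  set n := Multiset.card S with hn
  let s : ℕ → ℚ := fun i => l.getD i 0
  let g : ℕ → ℚ := fun i => m.getD i 0
  have hs : ∀ i j, i ≤ j → j < n → s i ≤ s j := by
    intro i j hij hj
    rcases hij.eq_or_lt with rfl | hlt
    · exact le_rfl
    have hj' : j < l.length := by omega
    have hi' : i < l.length := by omega
    change l.getD i 0 ≤ l.getD j 0
    rw [List.getD_eq_getElem _ _ hi', List.getD_eq_getElem _ _ hj']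
    exact List.pairwise_iff_getElem.1 hsorted i j hi' hj' hlt
  have hd : ∀ k ≤ n, ∑ i ∈ range k, (g i - s i) ≤ 0 := by
    intro k _
    rw [sum_sub_distrib, ← take_sum m k, ← take_sum l k]
    have := hpol k
    unfold polygon at this
    linarith
  have hd0 : ∑ i ∈ range n, (g i - s i) = 0 := by
    rw [sum_sub_distrib, ← take_sum m n, ← take_sum l n,
      List.take_of_length_le (by omega), List.take_of_length_le (by omega)]
    have e1 : l.sum = S.sum := by rw [← hlS]; simp
    have e2 : m.sum = H.sum := by rw [← hmH]; simp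
    rw [e1, e2, hsum, sub_self]
  have hab : 0 ≤ ∑ i ∈ range n, s i * (g i - s i) := by
    rcases Nat.eq_zero_or_pos n with h0 | hpos
    · rw [h0]; simp
    · have := abel s (fun i => g i - s i) n (s (n - 1)) (fun i hi => hs i (n - 1) (by omega) (by omega))
        hs hd
      rwa [hd0, mul_zero] at this
  have eS : sq S = ∑ i ∈ range n, s i ^ 2 := by
    have := map_sq_sum l
    rw [hll] at this
    unfold sq
    rw [← this, ← hlS]
    simp
  have eH : sq H = ∑ i ∈ range n, g i ^ 2 := by
    have := map_sq_sum m
    rw [hml] at this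
    unfold sq
    rw [← this, ← hmH]
    simp
  have key : sq H = sq S + 2 * ∑ i ∈ range n, s i * (g i - s i) +
      ∑ i ∈ range n, (g i - s i) ^ 2 := by
    rw [eS, eH, mul_sum, ← sum_add_distrib, ← sum_add_distrib]
    exact sum_congr rfl fun i _ => by ring
  have hsq : 0 ≤ ∑ i ∈ range n, (g i - s i) ^ 2 := sum_nonneg fun i _ => sq_nonneg _
  refine ⟨by linarith, fun heq => ?_⟩
  have h0 : ∑ i ∈ range n, (g i - s i) ^ 2 = 0 := by linarith
  have h1 := (sum_eq_zero_iff_of_nonneg fun i _ => sq_nonneg (g i - s i)).1 h0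
  have hlm : l = m := by
    apply List.ext_getElem (by omega)
    intro i hi hi'
    have h2 := h1 i (mem_range.2 (by omega))
    have h3 : g i = s i := by
      have := pow_eq_zero_iff (two_ne_zero) |>.1 h2
      linarith
    have h4 : m.getD i 0 = l.getD i 0 := h3
    rw [List.getD_eq_getElem _ _ hi', List.getD_eq_getElem _ _ hi] at h4
    exact h4.symm
  rw [← hlS, ← hmH, hlm]

/-- `sq` as a homomorphism -/
def sqHom : Multiset ℚ →+ ℚ where
  toFun := sq
  map_zero' := by simp [sq]
  map_add' S T := by simp [sq]

lemma sq_add (S T : Multiset ℚ) : sq (S + T) = sq S + sq T := map_add sqHom S T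

lemma sq_shift (a : ℚ) (T : Multiset ℚ) :
    sq (T.map fun b => a + b) = Multiset.card T * a ^ 2 + 2 * a * T.sum + sq T := by
  induction T using Multiset.induction_on with
  | empty => simp [sq]
  | cons b T ih =>
    have h1 : sq ((b ::ₘ T).map fun b => a + b) = (a + b) ^ 2 + sq (T.map fun b => a + b) := by
      simp [sq]
    have h2 : sq (b ::ₘ T) = b ^ 2 + sq T := by simp [sq]
    rw [h1, h2, ih, Multiset.card_cons, Multiset.sum_cons]
    push_cast
    ring

lemma sq_pairSums (S T : Multiset ℚ) :
    sq (pairSums S T) = Multiset.card T * sq S + 2 * (S.sum * T.sum) + Multiset.card S * sq T := by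
  induction S using Multiset.induction_on with
  | empty => simp [sq, pairSums]
  | cons a S ih =>
    have h1 : pairSums (a ::ₘ S) T = T.map (fun b => a + b) + pairSums S T := by
      simp [pairSums]
    have h2 : sq (a ::ₘ S) = a ^ 2 + sq S := by simp [sq]
    rw [h1, sq_add, sq_shift, ih, h2, Multiset.card_cons, Multiset.sum_cons]
    push_cast
    ring

/-- Equality of the polygons passes from a sum of tensor products to the factors. -/
theorem factors_eq {sX wX sY wY : ℕ → Multiset ℚ} (hX : ∀ i, LiesAbove (sX i) (wX i))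
    (hY : ∀ i, LiesAbove (sY i) (wY i)) {n : ℕ}
    (h : ∑ x ∈ antidiagonal n, pairSums (sX x.1) (sY x.2) =
      ∑ x ∈ antidiagonal n, pairSums (wX x.1) (wY x.2)) {i j : ℕ} (hij : i + j = n) :
    (wY j ≠ 0 → sX i = wX i) ∧ (wX i ≠ 0 → sY j = wY j) := by
  have hle : ∀ x ∈ antidiagonal n, sq (pairSums (sX x.1) (sY x.2)) ≤ sq (pairSums (wX x.1) (wY x.2)) := by
    intro x _
    have h1 := (sq_le (hX x.1)).1
    have h2 := (sq_le (hY x.2)).1
    rw [sq_pairSums, sq_pairSums, (hX x.1).1, (hX x.1).2.1, (hY x.2).1, (hY x.2).2.1]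
    have h3 : (Multiset.card (wY x.2) : ℚ) * sq (sX x.1) ≤ Multiset.card (wY x.2) * sq (wX x.1) :=
      mul_le_mul_of_nonneg_left h1 (Nat.cast_nonneg _)
    have h4 : (Multiset.card (wX x.1) : ℚ) * sq (sY x.2) ≤ Multiset.card (wX x.1) * sq (wY x.2) :=
      mul_le_mul_of_nonneg_left h2 (Nat.cast_nonneg _)
    linarith
  have hsum : ∑ x ∈ antidiagonal n, sq (pairSums (sX x.1) (sY x.2)) =
      ∑ x ∈ antidiagonal n, sq (pairSums (wX x.1) (wY x.2)) := by
    have h1 := congrArg sqHom h
    rw [map_sum, map_sum] at h1
    exact h1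
  have heq := (sum_eq_sum_iff_of_le hle).1 hsum (i, j) (mem_antidiagonal.2 hij)
  have h1 := sq_le (hX i)
  have h2 := sq_le (hY j)
  simp only at heq
  rw [sq_pairSums, sq_pairSums, (hX i).1, (hX i).2.1, (hY j).1, (hY j).2.1] at heq
  have h3 : (Multiset.card (wY j) : ℚ) * sq (sX i) ≤ Multiset.card (wY j) * sq (wX i) :=
    mul_le_mul_of_nonneg_left h1.1 (Nat.cast_nonneg _)
  have h4 : (Multiset.card (wX i) : ℚ) * sq (sY j) ≤ Multiset.card (wX i) * sq (wY j) :=
    mul_le_mul_of_nonneg_left h2.1 (Nat.cast_nonneg _)
  refine ⟨fun hne => h1.2 ?_, fun hne => h2.2 ?_⟩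
  · have h5 : (Multiset.card (wY j) : ℚ) * sq (sX i) = Multiset.card (wY j) * sq (wX i) := by
      linarith
    exact mul_left_cancel₀ (by exact_mod_cast fun h0 => hne (Multiset.card_eq_zero.1 h0)) h5
  · have h5 : (Multiset.card (wX i) : ℚ) * sq (sY j) = Multiset.card (wX i) * sq (wY j) := by
      linarith
    exact mul_left_cancel₀ (by exact_mod_cast fun h0 => hne (Multiset.card_eq_zero.1 h0)) h5

/-- Equality of the polygons passes from a direct sum to the summands. -/
theorem summand_eq {S H S' H' : Multiset ℚ} (h : LiesAbove S H) (h' : LiesAbove S' H')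
    (heq : S + S' = H + H') : S = H := by
  have h1 := congrArg sq heq
  rw [sq_add, sq_add] at h1
  exact (sq_le h).2 (by linarith [(sq_le h).1, (sq_le h').1])

end Pool.Agent.U8.IH
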